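import Mathlib
import Pool.Agent.Q167.SL.StmA

/-!
Lemma job SL-EXP (helper263) of project SL2 (helper167, MP_b5f63d_co): the dual size of the
exponentials.
-/

set_option autoImplicit false

open MeasureTheory Filter Topology Complex

namespace Pool.Agent.Q263.SL

open Pool.Agent.TH41.KL (PD cosA)
open Pool.Agent.Q167.SL

variable {n : ℕ}

theorem cosA_mem (x y : EuclideanSpace ℝ (Fin n)) : cosA x y ∈ Set.Icc (-1 : ℝ) 1 := by
  have h := abs_real_inner_div_norm_mul_norm_le_one x y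
  exact ⟨(abs_le.mp h).1, (abs_le.mp h).2⟩

theorem cosA_comm (x y : EuclideanSpace ℝ (Fin n)) : cosA x y = cosA y x := by
  unfold cosA
  rw [real_inner_comm, mul_comm]

theorem meas_cosA : Measurable (fun p : EuclideanSpace ℝ (Fin n) × EuclideanSpace ℝ (Fin n) =>
    cosA p.1 p.2) := by
  unfold cosA
  exact (measurable_fst.inner measurable_snd).div (measurable_fst.norm.mul measurable_snd.norm)

theorem meas_K {g : ℝ → ℝ} (hg : ContinuousOn g (Set.Icc (-1) 1)) :
    Measurable (fun p : EuclideanSpace ℝ (Fin n) × EuclideanSpace ℝ (Fin n) =>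
      g (cosA p.1 p.2)) := by
  have h1 : Continuous (Set.IccExtend (show (-1 : ℝ) ≤ 1 by norm_num)
      ((Set.Icc (-1 : ℝ) 1).domRestrict g)) := (hg.domRestrict).Icc_extend'
  have h2 := h1.measurable.comp (meas_cosA (n := n))
  convert h2 using 1
  funext p
  simp only [Function.comp]
  rw [Set.IccExtend_of_mem _ _ (cosA_mem p.1 p.2)]
  rfl

theorem g_bound {g : ℝ → ℝ} (hPD : PD n g) (x y : EuclideanSpace ℝ (Fin n)) (hx : x ≠ 0)
    (hy : y ≠ 0) : |g (cosA x y)| ≤ g 1 := by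
  have hx0 : 0 < ‖x‖ := norm_pos_iff.mpr hx
  have hy0 : 0 < ‖y‖ := norm_pos_iff.mpr hy
  set u : EuclideanSpace ℝ (Fin n) := (‖x‖)⁻¹ • x with hu
  set w : EuclideanSpace ℝ (Fin n) := (‖y‖)⁻¹ • y with hw
  have hun : ‖u‖ = 1 := by
    rw [hu, norm_smul, norm_inv, norm_norm, inv_mul_cancel₀ hx0.ne']
  have hwn : ‖w‖ = 1 := by
    rw [hw, norm_smul, norm_inv, norm_norm, inv_mul_cancel₀ hy0.ne']
  have huw : inner ℝ u w = cosA x y := by
    rw [hu, hw, real_inner_smul_left, real_inner_smul_right]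
    unfold cosA
    field_simp
  have hwu : inner ℝ w u = cosA x y := by rw [real_inner_comm, huw]
  have huu : inner ℝ u u = (1 : ℝ) := by rw [real_inner_self_eq_norm_sq, hun]; norm_num
  have hww : inner ℝ w w = (1 : ℝ) := by rw [real_inner_self_eq_norm_sq, hwn]; norm_num
  have h1 := hPD 2 ![u, w] ![1, 1] (by intro i; fin_cases i <;> simp [hun, hwn])
  have h2 := hPD 2 ![u, w] ![1, -1] (by intro i; fin_cases i <;> simp [hun, hwn])
  simp [Fin.sum_univ_two, huw, hwu, hun, hwn] at h1 h2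
  rw [abs_le]
  constructor <;> linarith

/-- the product measure -/
noncomputable def nu (n : ℕ) (r : ℝ) :
    Measure (EuclideanSpace ℝ (Fin n) × EuclideanSpace ℝ (Fin n)) :=
  (volume.restrict (shell n r)).prod (volume.restrict (shell n r))

theorem shell_open (n : ℕ) (r : ℝ) : IsOpen (shell n r) :=
  (isOpen_lt continuous_const continuous_norm).inter (isOpen_lt continuous_norm continuous_const)

theorem shell_meas (n : ℕ) (r : ℝ) : MeasurableSet (shell n r) := (shell_open n r).measurableSet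

instance shell_fin (n : ℕ) (r : ℝ) : IsFiniteMeasure (volume.restrict (shell n r)) := by
  constructor
  rw [Measure.restrict_apply_univ]
  refine lt_of_le_of_lt (measure_mono ?_)
    (measure_ball_lt_top (x := (0 : EuclideanSpace ℝ (Fin n))) (r := 1))
  intro x hx
  rw [mem_ball_zero_iff]
  exact hx.2

instance nu_fin (n : ℕ) (r : ℝ) : IsFiniteMeasure (nu n r) := by
  unfold nu
  infer_instance

theorem nu_ae (n : ℕ) (r : ℝ) : ∀ᵐ p ∂(nu n r), p.1 ∈ shell n r ∧ p.2 ∈ shell n r := by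
  unfold nu
  rw [Measure.prod_restrict]
  filter_upwards [ae_restrict_mem ((shell_meas n r).prod (shell_meas n r))] with p hp
  exact hp

theorem K_bound {g : ℝ → ℝ} (hPD : PD n g) {r : ℝ} (hr : 0 ≤ r) :
    ∀ᵐ p ∂(nu n r), ‖((g (cosA p.1 p.2) : ℝ) : ℂ)‖ ≤ g 1 := by
  filter_upwards [nu_ae n r] with p hp
  rw [Complex.norm_real, Real.norm_eq_abs]
  refine g_bound hPD _ _ ?_ ?_
  · rw [← norm_pos_iff]
    exact lt_of_le_of_lt hr hp.1.1
  · rw [← norm_pos_iff]
    exact lt_of_le_of_lt hr hp.2.1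

/-- the Hermitian form -/
noncomputable def PF (n : ℕ) (r : ℝ) (g : ℝ → ℝ) (F G : EuclideanSpace ℝ (Fin n) → ℂ) : ℂ :=
  ∫ p, ((g (cosA p.1 p.2) : ℝ) : ℂ) * F p.1 * (starRingEnd ℂ) (G p.2) ∂(nu n r)

theorem int_bdd {r : ℝ} {f : EuclideanSpace ℝ (Fin n) × EuclideanSpace ℝ (Fin n) → ℂ}
    (hf : AEStronglyMeasurable f (nu n r)) {M : ℝ} (hM : ∀ᵐ p ∂(nu n r), ‖f p‖ ≤ M) :
    Integrable f (nu n r) :=
  Integrable.of_bound hf M hM

theorem int_PF {g : ℝ → ℝ} (hg : ContinuousOn g (Set.Icc (-1) 1)) (hPD : PD n g) {r : ℝ}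
    (hr : 0 ≤ r) {F G : EuclideanSpace ℝ (Fin n) → ℂ} (hF : Continuous F) (hG : Continuous G)
    {M N : ℝ} (hM : ∀ x, ‖F x‖ ≤ M) (hN : ∀ x, ‖G x‖ ≤ N) :
    Integrable (fun p : EuclideanSpace ℝ (Fin n) × EuclideanSpace ℝ (Fin n) =>
      ((g (cosA p.1 p.2) : ℝ) : ℂ) * F p.1 * (starRingEnd ℂ) (G p.2)) (nu n r) := by
  have hM0 : 0 ≤ M := (norm_nonneg _).trans (hM 0)
  have hN0 : 0 ≤ N := (norm_nonneg _).trans (hN 0)
  refine int_bdd (M := g 1 * M * N) ?_ ?_
  · have h1 : Measurable (fun p : EuclideanSpace ℝ (Fin n) × EuclideanSpace ℝ (Fin n) =>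
        ((g (cosA p.1 p.2) : ℝ) : ℂ)) := Complex.measurable_ofReal.comp (meas_K hg)
    have h2 : Measurable (fun p : EuclideanSpace ℝ (Fin n) × EuclideanSpace ℝ (Fin n) =>
        F p.1) := (hF.comp continuous_fst).measurable
    have h3 : Measurable (fun p : EuclideanSpace ℝ (Fin n) × EuclideanSpace ℝ (Fin n) =>
        (starRingEnd ℂ) (G p.2)) :=
      (Complex.continuous_conj.comp (hG.comp continuous_snd)).measurable
    exact ((h1.mul h2).mul h3).aestronglyMeasurable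
  · filter_upwards [K_bound hPD hr] with p hp
    rw [norm_mul, norm_mul, RCLike.norm_conj]
    have hg1 : 0 ≤ g 1 := (norm_nonneg _).trans hp
    exact mul_le_mul (mul_le_mul hp (hM _) (norm_nonneg _) hg1) (hN _) (norm_nonneg _)
      (mul_nonneg hg1 hM0)

theorem PF_re_nonneg (hpsd : S_psd) (hn : 0 < n) {g : ℝ → ℝ}
    (hg : ContinuousOn g (Set.Icc (-1) 1)) (hPD : PD n g) {r : ℝ}
    (hr : 0 ≤ r) {F : EuclideanSpace ℝ (Fin n) → ℂ} (hF : Continuous F) {M : ℝ}
    (hM : ∀ x, ‖F x‖ ≤ M) : 0 ≤ (PF n r g F F).re := by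
  have h := hpsd n g r hn hg hPD hr F hF ⟨M, hM⟩
  have h2 : PF n r g F F = ∫ x in shell n r, ∫ y in shell n r,
      ((g (cosA x y) : ℝ) : ℂ) * F x * (starRingEnd ℂ) (F y) := by
    unfold PF nu
    exact integral_prod _ (int_PF hg hPD hr hF hF hM hM)
  rw [h2]
  exact h

theorem PF_symm {g : ℝ → ℝ} {r : ℝ} (F G : EuclideanSpace ℝ (Fin n) → ℂ) :
    PF n r g G F = (starRingEnd ℂ) (PF n r g F G) := by
  unfold PF
  rw [← integral_conj]
  unfold nu
  rw [← integral_prod_swap]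
  congr 1
  funext p
  simp only [Prod.fst_swap, Prod.snd_swap, map_mul, Complex.conj_ofReal, Complex.conj_conj]
  rw [cosA_comm p.2 p.1]
  ring

theorem cs (hpsd : S_psd) (hn : 0 < n) {g : ℝ → ℝ}
    (hg : ContinuousOn g (Set.Icc (-1) 1)) (hPD : PD n g) {r : ℝ}
    (hr : 0 ≤ r) {F G : EuclideanSpace ℝ (Fin n) → ℂ} (hF : Continuous F) (hG : Continuous G)
    {M N : ℝ} (hM : ∀ x, ‖F x‖ ≤ M) (hN : ∀ x, ‖G x‖ ≤ N) :
    ‖PF n r g F G‖ ≤ ((PF n r g F F).re + (PF n r g G G).re) / 2 := by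
  by_cases hz : PF n r g F G = 0
  · rw [hz, norm_zero]
    have h1 := PF_re_nonneg hpsd hn hg hPD hr hF hM
    have h2 := PF_re_nonneg hpsd hn hg hPD hr hG hN
    linarith
  set P := PF n r g F G with hP
  have hP0 : 0 < ‖P‖ := norm_pos_iff.mpr hz
  set c : ℂ := -(P / (‖P‖ : ℂ)) with hc
  have hcn : (starRingEnd ℂ) c * c = 1 := by
    rw [hc]
    have hPn : ((‖P‖ : ℝ) : ℂ) ≠ 0 := by exact_mod_cast hP0.ne'
    simp only [map_neg, map_div₀, Complex.conj_ofReal]
    field_simp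
    rw [mul_comm, Complex.mul_conj, Complex.normSq_eq_norm_sq]
    push_cast
    ring
  have hcP : (starRingEnd ℂ) c * P = -(‖P‖ : ℂ) := by
    rw [hc]
    have hPn : ((‖P‖ : ℝ) : ℂ) ≠ 0 := by exact_mod_cast hP0.ne'
    simp only [map_neg, map_div₀, Complex.conj_ofReal]
    rw [neg_mul, neg_inj]
    rw [div_mul_eq_mul_div, mul_comm ((starRingEnd ℂ) P) P, Complex.mul_conj,
      Complex.normSq_eq_norm_sq]
    field_simp
    push_cast
    ring
  have hcc : ‖c‖ = 1 := by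
    rw [hc, norm_neg, norm_div, Complex.norm_real, norm_norm, div_self hP0.ne']
  have hH : Continuous (fun x => F x + c * G x) := hF.add (continuous_const.mul hG)
  have hHb : ∀ x, ‖F x + c * G x‖ ≤ M + N := by
    intro x
    refine (norm_add_le _ _).trans (add_le_add (hM x) ?_)
    rw [norm_mul, hcc, one_mul]
    exact hN x
  have h := PF_re_nonneg hpsd hn hg hPD hr hH hHb
  have hexp : PF n r g (fun x => F x + c * G x) (fun x => F x + c * G x) =
      PF n r g F F + (starRingEnd ℂ) c * P + c * (starRingEnd ℂ) P +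
        ((starRingEnd ℂ) c * c) * PF n r g G G := by
    rw [hP, ← PF_symm F G]
    have i1 := int_PF hg hPD hr hF hF hM hM
    have i2 := int_PF hg hPD hr hF hG hM hN
    have i3 := int_PF hg hPD hr hG hF hN hM
    have i4 := int_PF hg hPD hr hG hG hN hN
    unfold PF
    rw [← integral_const_mul, ← integral_const_mul, ← integral_const_mul]
    rw [← integral_add i1 (i2.const_mul _), ← integral_add _ (i3.const_mul _),
      ← integral_add _ (i4.const_mul _)]
    · congr 1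
      funext p
      simp only [map_add, map_mul]
      ring
    · exact (i1.add (i2.const_mul _)).add (i3.const_mul _)
    · exact i1.add (i2.const_mul _)
  rw [hexp, hcn, hcP] at h
  have h3 : (c * (starRingEnd ℂ) P).re = -‖P‖ := by
    have h4 : c * (starRingEnd ℂ) P = (starRingEnd ℂ) ((starRingEnd ℂ) c * P) := by
      simp
    rw [h4, hcP]
    simp
  simp only [Complex.add_re, one_mul, h3, Complex.neg_re, Complex.ofReal_re] at h
  linarith

/-- Fubini and the Fourier transform of a Gaussian -/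
theorem fub {r : ℝ} {A : EuclideanSpace ℝ (Fin n) × EuclideanSpace ℝ (Fin n) → ℂ}
    (hA : AEStronglyMeasurable A (nu n r)) {M : ℝ} (hM : ∀ᵐ p ∂(nu n r), ‖A p‖ ≤ M)
    {L : EuclideanSpace ℝ (Fin n) × EuclideanSpace ℝ (Fin n) → EuclideanSpace ℝ (Fin n)}
    (hL : Continuous L) {b : ℂ} (hb : 0 < b.re) :
    Integrable (fun z : EuclideanSpace ℝ (Fin n) => cexp (-b * ‖z‖ ^ 2) *
      ∫ p, A p * cexp (I * inner ℝ (L p) z) ∂(nu n r)) ∧
    ∫ z : EuclideanSpace ℝ (Fin n), cexp (-b * ‖z‖ ^ 2) *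
      ∫ p, A p * cexp (I * inner ℝ (L p) z) ∂(nu n r) =
    (Real.pi / b) ^ ((n : ℂ) / 2) * ∫ p, A p * cexp (-(‖L p‖ ^ 2) / (4 * b)) ∂(nu n r) := by
  have hAi : Integrable A (nu n r) := int_bdd hA hM
  have hgi : Integrable (fun z : EuclideanSpace ℝ (Fin n) => cexp (-b * ‖z‖ ^ 2)) := by
    have := GaussianFourier.integrable_cexp_neg_mul_sq_norm_add
      (V := EuclideanSpace ℝ (Fin n)) hb 0 0
    simpa using this
  have h1 : Integrable (fun q : EuclideanSpace ℝ (Fin n) ×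
      (EuclideanSpace ℝ (Fin n) × EuclideanSpace ℝ (Fin n)) =>
        cexp (-b * ‖q.1‖ ^ 2) * A q.2) (volume.prod (nu n r)) := hgi.mul_prod hAi
  have hm : Measurable (fun q : EuclideanSpace ℝ (Fin n) ×
      (EuclideanSpace ℝ (Fin n) × EuclideanSpace ℝ (Fin n)) =>
        cexp (I * inner ℝ (L q.2) q.1)) := by
    refine Continuous.measurable ?_
    refine Complex.continuous_exp.comp (continuous_const.mul ?_)
    exact Complex.continuous_ofReal.comp ((hL.comp continuous_snd).inner continuous_fst)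
  have h2 : Integrable (fun q : EuclideanSpace ℝ (Fin n) ×
      (EuclideanSpace ℝ (Fin n) × EuclideanSpace ℝ (Fin n)) =>
        (cexp (-b * ‖q.1‖ ^ 2) * A q.2) * cexp (I * inner ℝ (L q.2) q.1))
        (volume.prod (nu n r)) := by
    refine h1.mul_bdd (c := 1) hm.aestronglyMeasurable ?_
    refine Eventually.of_forall (fun q => ?_)
    rw [mul_comm, Complex.norm_exp_ofReal_mul_I]
  have h3 := h2.integral_prod_left
  have he : (fun z : EuclideanSpace ℝ (Fin n) => cexp (-b * ‖z‖ ^ 2) *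
      ∫ p, A p * cexp (I * inner ℝ (L p) z) ∂(nu n r)) =
      fun z => ∫ p, (cexp (-b * ‖z‖ ^ 2) * A p) * cexp (I * inner ℝ (L p) z) ∂(nu n r) := by
    funext z
    rw [← integral_const_mul]
    congr 1
    funext p
    ring
  refine ⟨by rw [he]; exact h3, ?_⟩
  rw [he, integral_integral_swap h2, ← integral_const_mul]
  congr 1
  funext p
  have h4 : (fun z : EuclideanSpace ℝ (Fin n) =>
      (cexp (-b * ‖z‖ ^ 2) * A p) * cexp (I * inner ℝ (L p) z)) =
      fun z => A p * cexp (-b * ‖z‖ ^ 2 + I * inner ℝ (L p) z) := by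
    funext z
    rw [Complex.exp_add]
    ring
  rw [h4, integral_const_mul, GaussianFourier.integral_cexp_neg_mul_sq_norm_add hb I (L p)]
  rw [finrank_euclideanSpace_fin, Complex.I_sq]
  have h5 : (-1 : ℂ) * ‖L p‖ ^ 2 / (4 * b) = -(‖L p‖ ^ 2) / (4 * b) := by ring
  rw [h5]
  ring

/-- the quadratic bound -/
theorem qb {r : ℝ} {A : EuclideanSpace ℝ (Fin n) × EuclideanSpace ℝ (Fin n) → ℂ}
    {M : ℝ} (hM0 : 0 ≤ M) (hM : ∀ᵐ p ∂(nu n r), ‖A p‖ ≤ M)
    {c₀ : ℝ} (hc : 0 < c₀) :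
    ‖∫ p, A p * cexp (-((‖p.1 - p.2‖ : ℝ) : ℂ) ^ 2 / (4 * (c₀ : ℂ))) ∂(nu n r)‖ ≤
      M * ((4 * Real.pi * c₀) ^ ((n : ℝ) / 2) * vs n r) := by
  have hgi : Integrable (fun z : EuclideanSpace ℝ (Fin n) =>
      Real.exp (-(1 / (4 * c₀)) * ‖z‖ ^ 2)) := by
    have h := GaussianFourier.integrable_cexp_neg_mul_sq_norm_add
      (V := EuclideanSpace ℝ (Fin n)) (b := ((1 / (4 * c₀) : ℝ) : ℂ))
      (by rw [Complex.ofReal_re]; positivity) 0 0
    have h2 := h.re
    refine h2.congr (Eventually.of_forall (fun z => ?_))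
    simp only [RCLike.re_eq_complex_re, zero_mul, add_zero]
    rw [← Complex.ofReal_neg, ← Complex.ofReal_pow, ← Complex.ofReal_mul, Complex.exp_ofReal_re]
  have hgv : ∫ z : EuclideanSpace ℝ (Fin n), Real.exp (-(1 / (4 * c₀)) * ‖z‖ ^ 2) =
      (4 * Real.pi * c₀) ^ ((n : ℝ) / 2) := by
    rw [GaussianFourier.integral_rexp_neg_mul_sq_norm (by positivity), finrank_euclideanSpace_fin]
    congr 1
    field_simp
  have hcont : Continuous (fun p : EuclideanSpace ℝ (Fin n) × EuclideanSpace ℝ (Fin n) =>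
      Real.exp (-(1 / (4 * c₀)) * ‖p.1 - p.2‖ ^ 2)) := by fun_prop
  have hint : Integrable (fun p : EuclideanSpace ℝ (Fin n) × EuclideanSpace ℝ (Fin n) =>
      Real.exp (-(1 / (4 * c₀)) * ‖p.1 - p.2‖ ^ 2)) (nu n r) := by
    refine Integrable.of_bound hcont.aestronglyMeasurable 1 (Eventually.of_forall (fun p => ?_))
    rw [Real.norm_eq_abs, abs_of_pos (Real.exp_pos _), Real.exp_le_one_iff]
    have : 0 ≤ 1 / (4 * c₀) * ‖p.1 - p.2‖ ^ 2 := by positivity
    linarith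
  have h1 : ‖∫ p, A p * cexp (-((‖p.1 - p.2‖ : ℝ) : ℂ) ^ 2 / (4 * (c₀ : ℂ))) ∂(nu n r)‖ ≤
      ∫ p, M * Real.exp (-(1 / (4 * c₀)) * ‖p.1 - p.2‖ ^ 2) ∂(nu n r) := by
    refine norm_integral_le_of_norm_le (hint.const_mul M) ?_
    filter_upwards [hM] with p hp
    rw [norm_mul]
    refine mul_le_mul hp (le_of_eq ?_) (norm_nonneg _) hM0
    rw [Complex.norm_exp]
    congr 1
    have : (-((‖p.1 - p.2‖ : ℝ) : ℂ) ^ 2 / (4 * (c₀ : ℂ))) =
        ((-(1 / (4 * c₀)) * ‖p.1 - p.2‖ ^ 2 : ℝ) : ℂ) := by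
      push_cast
      ring
    rw [this, Complex.ofReal_re]
  refine h1.trans ?_
  rw [integral_const_mul]
  refine mul_le_mul_of_nonneg_left ?_ hM0
  have h2 : ∫ p, Real.exp (-(1 / (4 * c₀)) * ‖p.1 - p.2‖ ^ 2) ∂(nu n r) =
      ∫ x in shell n r, ∫ y in shell n r, Real.exp (-(1 / (4 * c₀)) * ‖x - y‖ ^ 2) := by
    unfold nu at hint ⊢
    exact integral_prod _ hint
  rw [h2]
  have h3 : ∀ x : EuclideanSpace ℝ (Fin n),
      ∫ y in shell n r, Real.exp (-(1 / (4 * c₀)) * ‖x - y‖ ^ 2) ≤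
        (4 * Real.pi * c₀) ^ ((n : ℝ) / 2) := by
    intro x
    rw [← hgv, ← integral_sub_left_eq_self _ volume x]
    refine setIntegral_le_integral (hgi.comp_sub_left x) (Eventually.of_forall (fun y => ?_))
    exact (Real.exp_pos _).le
  have h4 : ∫ x in shell n r, ∫ y in shell n r, Real.exp (-(1 / (4 * c₀)) * ‖x - y‖ ^ 2) ≤
      ∫ _x in shell n r, (4 * Real.pi * c₀) ^ ((n : ℝ) / 2) := by
    refine integral_mono_of_nonneg (Eventually.of_forall (fun x => ?_)) (integrable_const _)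
      (Eventually.of_forall h3)
    exact integral_nonneg (fun y => (Real.exp_pos _).le)
  refine h4.trans (le_of_eq ?_)
  rw [integral_const, smul_eq_mul, mul_comm]
  unfold vs
  rw [Measure.real, Measure.restrict_apply_univ]

/-- the pairing as an integral over the product -/
theorem pr_eq {g : ℝ → ℝ} (hg : ContinuousOn g (Set.Icc (-1) 1)) (hPD : PD n g) {r : ℝ}
    (hr : 0 ≤ r) (w : ℂ) :
    pr n r g (fun τ => cexp (w * τ)) =
      ∫ p, ((g (cosA p.1 p.2) : ℝ) : ℂ) * cexp (w * (inner ℝ p.1 p.2 : ℝ)) ∂(nu n r) := by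
  unfold pr nu
  symm
  refine integral_prod _ ?_
  change Integrable _ (nu n r)
  refine int_bdd (M := g 1 * Real.exp ‖w‖) ?_ ?_
  · have h1 : Measurable (fun p : EuclideanSpace ℝ (Fin n) × EuclideanSpace ℝ (Fin n) =>
        ((g (cosA p.1 p.2) : ℝ) : ℂ)) := Complex.measurable_ofReal.comp (meas_K hg)
    have h2 : Continuous (fun p : EuclideanSpace ℝ (Fin n) × EuclideanSpace ℝ (Fin n) =>
        cexp (w * (inner ℝ p.1 p.2 : ℝ))) := by
      refine Complex.continuous_exp.comp (continuous_const.mul ?_)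
      exact Complex.continuous_ofReal.comp (continuous_fst.inner continuous_snd)
    exact (h1.mul h2.measurable).aestronglyMeasurable
  · filter_upwards [K_bound hPD hr, nu_ae n r] with p hp hq
    rw [norm_mul]
    have hg1 : 0 ≤ g 1 := (norm_nonneg _).trans hp
    refine mul_le_mul hp ?_ (norm_nonneg _) hg1
    refine (Complex.norm_exp_le_exp_norm _).trans (Real.exp_le_exp.mpr ?_)
    rw [norm_mul, Complex.norm_real]
    have h3 : ‖(inner ℝ p.1 p.2 : ℝ)‖ ≤ 1 := by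
      refine (norm_inner_le_norm _ _).trans ?_
      have := hq.1.2
      have := hq.2.2
      nlinarith [norm_nonneg p.1, norm_nonneg p.2]
    nlinarith [norm_nonneg w, norm_nonneg (inner ℝ p.1 p.2 : ℝ)]

theorem main_pos (hpsd : S_psd) (hn : 0 < n) {g : ℝ → ℝ}
    (hg : ContinuousOn g (Set.Icc (-1) 1)) (hPD : PD n g) {r : ℝ} (hr : 0 ≤ r)
    {σ : ℂ} (hσ : 0 < σ.re) {s : ℝ} (hs : s * s = 1) :
    ‖pr n r g (fun τ => cexp (n * (s * σ) * τ))‖ ≤
      (2 * Real.pi / (n * ‖σ‖)) ^ ((n : ℝ) / 2) * Real.exp (n * σ.re) * g 1 * vs n r := by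
  have hn0 : (0 : ℝ) < n := by exact_mod_cast hn
  have hσ0 : σ ≠ 0 := by
    rintro rfl
    simp at hσ
  have hσn : 0 < ‖σ‖ := norm_pos_iff.mpr hσ0
  have hnC : (n : ℂ) ≠ 0 := by exact_mod_cast hn.ne'
  -- the weight
  obtain ⟨a, ha⟩ : ∃ a : EuclideanSpace ℝ (Fin n) → ℂ, a = fun x =>
    cexp (n * σ * ((min ‖x‖ 1 : ℝ) : ℂ) ^ 2 / 2) := ⟨_, rfl⟩
  have hac : Continuous a := by
    rw [ha]
    refine Complex.continuous_exp.comp ?_
    refine (continuous_const.mul (Continuous.pow ?_ 2)).div_const 2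
    exact Complex.continuous_ofReal.comp (continuous_norm.min continuous_const)
  have han : ∀ x, ‖a x‖ ≤ Real.exp (n * σ.re / 2) := by
    intro x
    rw [ha]
    simp only
    rw [Complex.norm_exp, Real.exp_le_exp]
    have h1 : (n * σ * ((min ‖x‖ 1 : ℝ) : ℂ) ^ 2 / 2) =
        ((n * (min ‖x‖ 1) ^ 2 / 2 : ℝ) : ℂ) * σ := by
      push_cast
      ring
    rw [h1, Complex.re_ofReal_mul]
    have h2 : (min ‖x‖ 1) ^ 2 ≤ 1 := by
      have h3 : 0 ≤ min ‖x‖ 1 := le_min (norm_nonneg _) zero_le_one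
      have h4 : min ‖x‖ 1 ≤ 1 := min_le_right _ _
      nlinarith
    have h5 : 0 < (n : ℝ) * σ.re := mul_pos hn0 hσ
    nlinarith
  obtain ⟨m, hm⟩ : ∃ m : ℝ, m = Real.exp (n * σ.re / 2) := ⟨_, rfl⟩
  rw [← hm] at han
  have hm0 : 0 < m := by rw [hm]; exact Real.exp_pos _
  have hmm : m * m = Real.exp (n * σ.re) := by
    rw [hm, ← Real.exp_add]
    congr 1
    ring
  obtain ⟨F, hF⟩ : ∃ F : EuclideanSpace ℝ (Fin n) → EuclideanSpace ℝ (Fin n) → ℂ,
    F = fun z x => a x * cexp (I * (inner ℝ x z : ℝ)) := ⟨_, rfl⟩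
  obtain ⟨G, hG⟩ : ∃ G : EuclideanSpace ℝ (Fin n) → EuclideanSpace ℝ (Fin n) → ℂ,
    G = fun z x => (starRingEnd ℂ) (a x) * cexp (I * (s * inner ℝ x z : ℝ)) := ⟨_, rfl⟩
  have hFc : ∀ z, Continuous (F z) := by
    intro z
    rw [hF]
    refine hac.mul (Complex.continuous_exp.comp (continuous_const.mul ?_))
    exact Complex.continuous_ofReal.comp (continuous_id.inner continuous_const)
  have hGc : ∀ z, Continuous (G z) := by
    intro z
    rw [hG]
    refine (Complex.continuous_conj.comp hac).mul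
      (Complex.continuous_exp.comp (continuous_const.mul ?_))
    exact Complex.continuous_ofReal.comp
      (continuous_const.mul (continuous_id.inner continuous_const))
  have hFb : ∀ z x, ‖F z x‖ ≤ m := by
    intro z x
    rw [hF]
    simp only
    rw [norm_mul, mul_comm I, Complex.norm_exp_ofReal_mul_I, mul_one]
    exact han x
  have hGb : ∀ z x, ‖G z x‖ ≤ m := by
    intro z x
    rw [hG]
    simp only
    rw [norm_mul, mul_comm I, Complex.norm_exp_ofReal_mul_I, mul_one, RCLike.norm_conj]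
    exact han x
  -- the kernels
  have hKm : Measurable (fun p : EuclideanSpace ℝ (Fin n) × EuclideanSpace ℝ (Fin n) =>
        ((g (cosA p.1 p.2) : ℝ) : ℂ)) := Complex.measurable_ofReal.comp (meas_K hg)
  have ha1 : Measurable (fun p : EuclideanSpace ℝ (Fin n) × EuclideanSpace ℝ (Fin n) =>
        a p.1) := (hac.comp continuous_fst).measurable
  have ha2 : Measurable (fun p : EuclideanSpace ℝ (Fin n) × EuclideanSpace ℝ (Fin n) =>
        a p.2) := (hac.comp continuous_snd).measurable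
  have hb1 : Measurable (fun p : EuclideanSpace ℝ (Fin n) × EuclideanSpace ℝ (Fin n) =>
        (starRingEnd ℂ) (a p.1)) := Complex.continuous_conj.measurable.comp ha1
  have hb2 : Measurable (fun p : EuclideanSpace ℝ (Fin n) × EuclideanSpace ℝ (Fin n) =>
        (starRingEnd ℂ) (a p.2)) := Complex.continuous_conj.measurable.comp ha2
  have hAb : ∀ (u v : EuclideanSpace ℝ (Fin n) × EuclideanSpace ℝ (Fin n) → ℂ),
      (∀ p, ‖u p‖ ≤ m) → (∀ p, ‖v p‖ ≤ m) →
      ∀ᵐ p ∂(nu n r), ‖((g (cosA p.1 p.2) : ℝ) : ℂ) * u p * v p‖ ≤ g 1 * Real.exp (n * σ.re) := by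
    intro u v hu hv
    filter_upwards [K_bound hPD hr] with p hp
    have hg1 : 0 ≤ g 1 := (norm_nonneg _).trans hp
    rw [norm_mul, norm_mul, ← hmm, ← mul_assoc]
    exact mul_le_mul (mul_le_mul hp (hu p) (norm_nonneg _) hg1) (hv p) (norm_nonneg _)
      (mul_nonneg hg1 hm0.le)
  -- g 1 is nonnegative
  by_cases hg1 : 0 ≤ g 1
  swap
  · exfalso
    have hnE : ∃ x : EuclideanSpace ℝ (Fin n), x ≠ 0 := by
      have : Nonempty (Fin n) := ⟨⟨0, hn⟩⟩
      exact exists_ne 0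
    obtain ⟨x, hx⟩ := hnE
    exact hg1 ((abs_nonneg _).trans (g_bound hPD x x hx hx))
  -- the Gaussian parameter
  obtain ⟨b, hb⟩ : ∃ b : ℂ, b = 1 / (2 * n * σ) := ⟨_, rfl⟩
  have hb' : b = ((1 / (2 * n * ‖σ‖ ^ 2) : ℝ) : ℂ) * (starRingEnd ℂ) σ := by
    rw [hb]
    have h1 : σ * (starRingEnd ℂ) σ = ((‖σ‖ ^ 2 : ℝ) : ℂ) := by
      rw [Complex.mul_conj, Complex.normSq_eq_norm_sq]
    have h2 : ((‖σ‖ ^ 2 : ℝ) : ℂ) ≠ 0 := by
      exact_mod_cast (pow_pos hσn 2).ne'
    push_cast at h1 h2 ⊢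
    rw [eq_comm, div_mul_eq_mul_div, div_eq_div_iff (mul_ne_zero (mul_ne_zero two_ne_zero hnC) h2)
      (mul_ne_zero (mul_ne_zero two_ne_zero hnC) hσ0)]
    linear_combination (2 * (n : ℂ)) * h1
  obtain ⟨c₀, hc₀⟩ : ∃ c₀ : ℝ, c₀ = b.re := ⟨_, rfl⟩
  have hc0 : 0 < c₀ := by
    rw [hc₀, hb', Complex.re_ofReal_mul, Complex.conj_re]
    positivity
  have hb0 : b ≠ 0 := by
    intro h
    rw [h] at hc₀
    simp at hc₀
    linarith
  have hbre : 0 < b.re := by rw [← hc₀]; exact hc0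
  -- the three applications of Fubini
  have hL1 : Continuous (fun p : EuclideanSpace ℝ (Fin n) × EuclideanSpace ℝ (Fin n) =>
      p.1 - s • p.2) := by fun_prop
  have hL2 : Continuous (fun p : EuclideanSpace ℝ (Fin n) × EuclideanSpace ℝ (Fin n) =>
      p.1 - p.2) := by fun_prop
  have hL3 : Continuous (fun p : EuclideanSpace ℝ (Fin n) × EuclideanSpace ℝ (Fin n) =>
      s • (p.1 - p.2)) := by fun_prop
  have f1 := fub (r := r) (A := fun p => ((g (cosA p.1 p.2) : ℝ) : ℂ) * a p.1 * a p.2)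
    (((hKm.mul ha1).mul ha2).aestronglyMeasurable)
    (hAb (fun p => a p.1) (fun p => a p.2) (fun p => han _) (fun p => han _)) hL1 hbre
  have hcre : 0 < ((c₀ : ℝ) : ℂ).re := by rw [Complex.ofReal_re]; exact hc0
  have f2 := fub (r := r)
    (A := fun p => ((g (cosA p.1 p.2) : ℝ) : ℂ) * a p.1 * (starRingEnd ℂ) (a p.2))
    (((hKm.mul ha1).mul hb2).aestronglyMeasurable)
    (hAb (fun p => a p.1) (fun p => (starRingEnd ℂ) (a p.2)) (fun p => han _)
      (fun p => by rw [RCLike.norm_conj]; exact han _)) hL2 hcre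
  have f3 := fub (r := r)
    (A := fun p => ((g (cosA p.1 p.2) : ℝ) : ℂ) * (starRingEnd ℂ) (a p.1) * a p.2)
    (((hKm.mul hb1).mul ha2).aestronglyMeasurable)
    (hAb (fun p => (starRingEnd ℂ) (a p.1)) (fun p => a p.2)
      (fun p => by rw [RCLike.norm_conj]; exact han _) (fun p => han _)) hL3 hcre
  -- identification with the form
  have e1 : ∀ z, PF n r g (F z) (G z) = ∫ p, ((g (cosA p.1 p.2) : ℝ) : ℂ) * a p.1 * a p.2 *
      cexp (I * inner ℝ (p.1 - s • p.2) z) ∂(nu n r) := by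
    intro z
    unfold PF
    congr 1
    funext p
    rw [hF, hG]
    simp only [map_mul, Complex.conj_conj, ← Complex.exp_conj, Complex.conj_I, Complex.conj_ofReal]
    rw [inner_sub_left, real_inner_smul_left]
    have : cexp (I * ((inner ℝ p.1 z - s * inner ℝ p.2 z : ℝ) : ℂ)) =
        cexp (I * (inner ℝ p.1 z : ℝ)) * cexp (-I * (s * inner ℝ p.2 z : ℝ)) := by
      rw [← Complex.exp_add]
      congr 1
      push_cast
      ring
    rw [this]
    ring
  have e2 : ∀ z, PF n r g (F z) (F z) = ∫ p, ((g (cosA p.1 p.2) : ℝ) : ℂ) * a p.1 *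
      (starRingEnd ℂ) (a p.2) * cexp (I * inner ℝ (p.1 - p.2) z) ∂(nu n r) := by
    intro z
    unfold PF
    congr 1
    funext p
    rw [hF]
    simp only [map_mul, ← Complex.exp_conj, Complex.conj_I, Complex.conj_ofReal]
    rw [inner_sub_left]
    have : cexp (I * ((inner ℝ p.1 z - inner ℝ p.2 z : ℝ) : ℂ)) =
        cexp (I * (inner ℝ p.1 z : ℝ)) * cexp (-I * (inner ℝ p.2 z : ℝ)) := by
      rw [← Complex.exp_add]
      congr 1
      push_cast
      ring
    rw [this]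
    ring
  have e3 : ∀ z, PF n r g (G z) (G z) = ∫ p, ((g (cosA p.1 p.2) : ℝ) : ℂ) *
      (starRingEnd ℂ) (a p.1) * a p.2 * cexp (I * inner ℝ (s • (p.1 - p.2)) z) ∂(nu n r) := by
    intro z
    unfold PF
    congr 1
    funext p
    rw [hG]
    simp only [map_mul, Complex.conj_conj, ← Complex.exp_conj, Complex.conj_I, Complex.conj_ofReal]
    rw [real_inner_smul_left, inner_sub_left]
    have : cexp (I * ((s * (inner ℝ p.1 z - inner ℝ p.2 z) : ℝ) : ℂ)) =
        cexp (I * (s * inner ℝ p.1 z : ℝ)) * cexp (-I * (s * inner ℝ p.2 z : ℝ)) := by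
      rw [← Complex.exp_add]
      congr 1
      push_cast
      ring
    rw [this]
    ring
  simp only [← e1] at f1
  simp only [← e2] at f2
  simp only [← e3] at f3
  -- the pairing
  have hpr : pr n r g (fun τ => cexp (n * (s * σ) * τ)) = ∫ p, ((g (cosA p.1 p.2) : ℝ) : ℂ) *
      a p.1 * a p.2 * cexp (-(‖p.1 - s • p.2‖ ^ 2) / (4 * b)) ∂(nu n r) := by
    rw [pr_eq hg hPD hr]
    refine integral_congr_ae ?_
    filter_upwards [nu_ae n r] with p hp
    suffices hkey : cexp (n * (s * σ) * (inner ℝ p.1 p.2 : ℝ)) =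
        a p.1 * a p.2 * cexp (-(‖p.1 - s • p.2‖ ^ 2) / (4 * b)) by
      rw [hkey]
      ring
    rw [ha]
    simp only
    rw [min_eq_left hp.1.2.le, min_eq_left hp.2.2.le, ← Complex.exp_add, ← Complex.exp_add]
    congr 1
    have h1 : ‖p.1 - s • p.2‖ ^ 2 = ‖p.1‖ ^ 2 - 2 * (s * inner ℝ p.1 p.2) + ‖p.2‖ ^ 2 := by
      rw [norm_sub_sq_real, real_inner_smul_right, norm_smul, mul_pow, Real.norm_eq_abs, sq_abs]
      rw [show s ^ 2 = 1 by rw [sq]; exact hs]
      ring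
    have h2 : ((‖p.1 - s • p.2‖ : ℝ) : ℂ) ^ 2 =
        ((‖p.1‖ : ℝ) : ℂ) ^ 2 - 2 * (s * (inner ℝ p.1 p.2 : ℝ)) + ((‖p.2‖ : ℝ) : ℂ) ^ 2 := by
      exact_mod_cast congrArg (fun t : ℝ => (t : ℂ)) h1
    rw [h2, hb]
    field_simp
    ring
  rw [← hpr] at f1
  -- norm inequality
  have hmain : ‖(Real.pi / b) ^ ((n : ℂ) / 2) * pr n r g (fun τ => cexp (n * (s * σ) * τ))‖ ≤
      g 1 * Real.exp (n * σ.re) * ((2 * Real.pi) ^ (n : ℝ) * vs n r) := by
    rw [← f1.2]
    have hint2 := (f2.1.re.add f3.1.re).div_const 2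
    have hb1 : ∀ z : EuclideanSpace ℝ (Fin n), ‖cexp (-b * ‖z‖ ^ 2) * PF n r g (F z) (G z)‖ ≤
        (RCLike.re (cexp (-((c₀ : ℝ) : ℂ) * ‖z‖ ^ 2) * PF n r g (F z) (F z)) +
          RCLike.re (cexp (-((c₀ : ℝ) : ℂ) * ‖z‖ ^ 2) * PF n r g (G z) (G z))) / 2 := by
      intro z
      have h1 := cs hpsd hn hg hPD hr (hFc z) (hGc z) (hFb z) (hGb z)
      have h2 : cexp (-((c₀ : ℝ) : ℂ) * ‖z‖ ^ 2) = ((Real.exp (-c₀ * ‖z‖ ^ 2) : ℝ) : ℂ) := by
        push_cast
        rfl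
      have h3 : ‖cexp (-b * ‖z‖ ^ 2)‖ = Real.exp (-c₀ * ‖z‖ ^ 2) := by
        rw [Complex.norm_exp]
        congr 1
        have : (-b * (‖z‖ : ℂ) ^ 2) = ((‖z‖ ^ 2 : ℝ) : ℂ) * (-b) := by
          push_cast
          ring
        rw [this, Complex.re_ofReal_mul, Complex.neg_re, ← hc₀]
        ring
      rw [norm_mul, h3, h2]
      simp only [RCLike.re_eq_complex_re, Complex.re_ofReal_mul]
      have h4 := Real.exp_pos (-c₀ * ‖z‖ ^ 2)
      have := mul_le_mul_of_nonneg_left h1 h4.le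
      linarith
    refine (norm_integral_le_of_norm_le hint2 (Eventually.of_forall hb1)).trans ?_
    rw [integral_div]
    simp only [Pi.add_apply]
    rw [integral_add f2.1.re f3.1.re, integral_re f2.1, integral_re f3.1, f2.2, f3.2]
    have hq1 := qb (n := n) (r := r) (mul_nonneg hg1 (Real.exp_pos (n * σ.re)).le)
      (hAb (fun p => a p.1) (fun p => (starRingEnd ℂ) (a p.2)) (fun p => han _)
      (fun p => by rw [RCLike.norm_conj]; exact han _)) hc0
    have hq2 := qb (n := n) (r := r) (mul_nonneg hg1 (Real.exp_pos (n * σ.re)).le)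
      (hAb (fun p => (starRingEnd ℂ) (a p.1)) (fun p => a p.2)
      (fun p => by rw [RCLike.norm_conj]; exact han _) (fun p => han _)) hc0
    have hpow : ‖((Real.pi : ℂ) / ((c₀ : ℝ) : ℂ)) ^ ((n : ℂ) / 2)‖ =
        (Real.pi / c₀) ^ ((n : ℝ) / 2) := by
      have h1 : ((n : ℂ) / 2) = (((n : ℝ) / 2 : ℝ) : ℂ) := by push_cast; rfl
      rw [h1, Complex.norm_cpow_real, ← Complex.ofReal_div, Complex.norm_real, Real.norm_eq_abs,
        abs_of_pos (div_pos Real.pi_pos hc0)]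
    have hprod : (Real.pi / c₀) ^ ((n : ℝ) / 2) * (4 * Real.pi * c₀) ^ ((n : ℝ) / 2) =
        (2 * Real.pi) ^ (n : ℝ) := by
      rw [← Real.mul_rpow (by positivity) (by positivity)]
      rw [show Real.pi / c₀ * (4 * Real.pi * c₀) = (2 * Real.pi) ^ (2 : ℝ) by
        rw [Real.rpow_two]; field_simp; norm_num]
      rw [← Real.rpow_mul (by positivity)]
      congr 1
      ring
    have hx1 : RCLike.re (((Real.pi : ℂ) / ((c₀ : ℝ) : ℂ)) ^ ((n : ℂ) / 2) *
        ∫ p, ((g (cosA p.1 p.2) : ℝ) : ℂ) * a p.1 * (starRingEnd ℂ) (a p.2) *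
          cexp (-(‖p.1 - p.2‖ ^ 2) / (4 * ((c₀ : ℝ) : ℂ))) ∂(nu n r)) ≤
        g 1 * Real.exp (n * σ.re) * ((2 * Real.pi) ^ (n : ℝ) * vs n r) := by
      refine (RCLike.re_le_norm _).trans ?_
      rw [norm_mul, hpow, ← hprod]
      have h5 := mul_le_mul_of_nonneg_left hq1
        (Real.rpow_nonneg (div_pos Real.pi_pos hc0).le ((n : ℝ) / 2))
      refine h5.trans (le_of_eq ?_)
      ring
    have hx2 : RCLike.re (((Real.pi : ℂ) / ((c₀ : ℝ) : ℂ)) ^ ((n : ℂ) / 2) *
        ∫ p, ((g (cosA p.1 p.2) : ℝ) : ℂ) * (starRingEnd ℂ) (a p.1) * a p.2 *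
          cexp (-(‖s • (p.1 - p.2)‖ ^ 2) / (4 * ((c₀ : ℝ) : ℂ))) ∂(nu n r)) ≤
        g 1 * Real.exp (n * σ.re) * ((2 * Real.pi) ^ (n : ℝ) * vs n r) := by
      have hss : ∀ v : EuclideanSpace ℝ (Fin n), ‖s • v‖ = ‖v‖ := by
        intro v
        have : |s| = 1 := by
          have h6 : |s| * |s| = 1 := by rw [← abs_mul, hs, abs_one]
          nlinarith [abs_nonneg s]
        rw [norm_smul, Real.norm_eq_abs, this, one_mul]
      simp only [hss]
      refine (RCLike.re_le_norm _).trans ?_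
      rw [norm_mul, hpow, ← hprod]
      have h5 := mul_le_mul_of_nonneg_left hq2
        (Real.rpow_nonneg (div_pos Real.pi_pos hc0).le ((n : ℝ) / 2))
      refine h5.trans (le_of_eq ?_)
      ring
    linarith
  -- final computation
  rw [norm_mul] at hmain
  have hpb : ‖((Real.pi : ℂ) / b) ^ ((n : ℂ) / 2)‖ = (2 * Real.pi * n * ‖σ‖) ^ ((n : ℝ) / 2) := by
    have h1 : ((n : ℂ) / 2) = (((n : ℝ) / 2 : ℝ) : ℂ) := by push_cast; rfl
    have h2 : (Real.pi : ℂ) / b = 2 * Real.pi * n * σ := by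
      rw [hb]
      field_simp
    rw [h1, Complex.norm_cpow_real, h2]
    congr 1
    rw [norm_mul, norm_mul, norm_mul, Complex.norm_real, Complex.norm_natCast,
      Real.norm_eq_abs, abs_of_pos Real.pi_pos]
    norm_num
  rw [hpb] at hmain
  have hpos : 0 < (2 * Real.pi * n * ‖σ‖) ^ ((n : ℝ) / 2) := by positivity
  have hfin : (2 * Real.pi / (n * ‖σ‖)) ^ ((n : ℝ) / 2) * (2 * Real.pi * n * ‖σ‖) ^ ((n : ℝ) / 2) =
      (2 * Real.pi) ^ (n : ℝ) := by
    rw [← Real.mul_rpow (by positivity) (by positivity)]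
    rw [show 2 * Real.pi / (n * ‖σ‖) * (2 * Real.pi * n * ‖σ‖) = (2 * Real.pi) ^ (2 : ℝ) by
      rw [Real.rpow_two]; field_simp]
    rw [← Real.rpow_mul (by positivity)]
    congr 1
    ring
  rw [← mul_le_mul_iff_right₀ hpos]
  refine hmain.trans (le_of_eq ?_)
  rw [← hfin]
  ring

theorem pr_tendsto {g : ℝ → ℝ} (hg : ContinuousOn g (Set.Icc (-1) 1)) (hPD : PD n g) {r : ℝ}
    (hr : 0 ≤ r) {w : ℂ} {wk : ℕ → ℂ} (hw : Tendsto wk atTop (𝓝 w)) :
    Tendsto (fun k => pr n r g (fun τ => cexp (wk k * τ))) atTop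
      (𝓝 (pr n r g (fun τ => cexp (w * τ)))) := by
  simp only [pr_eq hg hPD hr]
  obtain ⟨R, hR⟩ : ∃ R : ℝ, ∀ k, ‖wk k‖ ≤ R := by
    obtain ⟨R, hR⟩ := (hw.norm).bddAbove_range
    exact ⟨R, fun k => hR ⟨k, rfl⟩⟩
  have hK : Measurable (fun p : EuclideanSpace ℝ (Fin n) × EuclideanSpace ℝ (Fin n) =>
        ((g (cosA p.1 p.2) : ℝ) : ℂ)) := Complex.measurable_ofReal.comp (meas_K hg)
  refine tendsto_integral_of_dominated_convergence (fun _ => g 1 * Real.exp R) ?_
    (integrable_const _) ?_ ?_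
  · intro k
    have h2 : Continuous (fun p : EuclideanSpace ℝ (Fin n) × EuclideanSpace ℝ (Fin n) =>
        cexp (wk k * (inner ℝ p.1 p.2 : ℝ))) := by
      refine Complex.continuous_exp.comp (continuous_const.mul ?_)
      exact Complex.continuous_ofReal.comp (continuous_fst.inner continuous_snd)
    exact (hK.mul h2.measurable).aestronglyMeasurable
  · intro k
    filter_upwards [K_bound hPD hr, nu_ae n r] with p hp hq
    rw [norm_mul]
    have hg1 : 0 ≤ g 1 := (norm_nonneg _).trans hp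
    refine mul_le_mul hp ?_ (norm_nonneg _) hg1
    refine (Complex.norm_exp_le_exp_norm _).trans (Real.exp_le_exp.mpr ?_)
    rw [norm_mul, Complex.norm_real]
    have h3 : ‖(inner ℝ p.1 p.2 : ℝ)‖ ≤ 1 := by
      refine (norm_inner_le_norm _ _).trans ?_
      have := hq.1.2
      have := hq.2.2
      nlinarith [norm_nonneg p.1, norm_nonneg p.2]
    have h4 := hR k
    nlinarith [norm_nonneg (wk k), norm_nonneg (inner ℝ p.1 p.2 : ℝ)]
  · refine Eventually.of_forall (fun p => ?_)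
    refine Tendsto.const_mul _ ?_
    exact (Complex.continuous_exp.tendsto _).comp (hw.mul_const _)

/-- SL-EXP -/
theorem exp1 (hpsd : S_psd) : S_exp := by
  intro n r hn hr hr1 σ hσ0 g hg hPD
  have hn0 : (0 : ℝ) < n := by exact_mod_cast hn
  rcases lt_trichotomy 0 σ.re with h | h | h
  · have h1 := main_pos hpsd hn hg hPD hr h (s := 1) (by norm_num)
    rw [abs_of_pos h]
    simpa only [Complex.ofReal_one, one_mul] using h1
  · -- the boundary case
    have hσn : 0 < ‖σ‖ := norm_pos_iff.mpr hσ0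
    have hek : Tendsto (fun k : ℕ => (1 / ((k : ℝ) + 1))) atTop (𝓝 0) :=
      tendsto_one_div_add_atTop_nhds_zero_nat
    have hsk : Tendsto (fun k : ℕ => σ + ((1 / ((k : ℝ) + 1) : ℝ) : ℂ)) atTop (𝓝 σ) := by
      have h1 : Tendsto (fun k : ℕ => σ + ((1 / ((k : ℝ) + 1) : ℝ) : ℂ)) atTop
          (𝓝 (σ + ((0 : ℝ) : ℂ))) :=
        tendsto_const_nhds.add ((Complex.continuous_ofReal.tendsto _).comp hek)
      simpa using h1
    have hpos : ∀ k : ℕ, 0 < (σ + ((1 / ((k : ℝ) + 1) : ℝ) : ℂ)).re := by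
      intro k
      rw [Complex.add_re, ← h, Complex.ofReal_re]
      positivity
    have hL := (pr_tendsto hg hPD hr (w := n * σ)
      (wk := fun k : ℕ => (n : ℂ) * (σ + ((1 / ((k : ℝ) + 1) : ℝ) : ℂ)))
      (tendsto_const_nhds.mul hsk)).norm
    have hR : Tendsto (fun k : ℕ =>
        (2 * Real.pi / (n * ‖σ + ((1 / ((k : ℝ) + 1) : ℝ) : ℂ)‖)) ^ ((n : ℝ) / 2) *
          Real.exp (n * (σ + ((1 / ((k : ℝ) + 1) : ℝ) : ℂ)).re) * g 1 * vs n r) atTop
        (𝓝 ((2 * Real.pi / (n * ‖σ‖)) ^ ((n : ℝ) / 2) * Real.exp (n * σ.re) * g 1 * vs n r)) := by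
      refine Tendsto.mul_const _ (Tendsto.mul_const _ (Tendsto.mul ?_ ?_))
      · refine Tendsto.rpow_const ?_ (Or.inr (by positivity))
        refine tendsto_const_nhds.div (tendsto_const_nhds.mul hsk.norm) ?_
        exact (mul_pos hn0 hσn).ne'
      · refine (Real.continuous_exp.tendsto _).comp (tendsto_const_nhds.mul ?_)
        exact (Complex.continuous_re.tendsto _).comp hsk
    rw [abs_of_nonneg h.le]
    refine le_of_tendsto_of_tendsto' hL hR (fun k => ?_)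
    have h1 := main_pos hpsd hn hg hPD hr (hpos k) (s := 1) (by norm_num)
    simpa only [Complex.ofReal_one, one_mul] using h1
  · have h2 : 0 < (-σ).re := by rw [Complex.neg_re]; linarith
    have h1 := main_pos hpsd hn hg hPD hr h2 (s := -1) (by norm_num)
    rw [abs_of_neg h]
    have h3 : ∀ τ : ℝ, (n : ℂ) * (((-1 : ℝ) : ℂ) * (-σ)) * τ = n * σ * τ := by
      intro τ
      push_cast
      ring
    simp only [h3, norm_neg, Complex.neg_re] at h1
    exact h1

end Pool.Agent.Q263.SL
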